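import Pool.Agent.Work.MP_0f7bbd_co.Final

/-!
The clique number of the xor-square of the Kneser graph `KG(n,k)` for large `n`.
-/

namespace Pool.Agent.Results.MP_0f7bbd_co.XorSquare

open Pool.Agent.Work.MP_0f7bbd_co

theorem result (k : ℕ) (hk : 1 ≤ k) : ∃ n₀ : ℕ, ∀ n : ℕ, n₀ ≤ n →
    (xorProd (kneser n k) (kneser n k)).cliqueNum = n / k + (k * (2 * k).choose k / 2 - k) :=
  final k hk

end Pool.Agent.Results.MP_0f7bbd_co.XorSquare
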